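import Mathlib

set_option autoImplicit false

namespace Pool.Agent.Y235.MO

abbrev W3 : Type := EuclideanSpace ℝ (Fin 3)

/-- the points of the face-centred cubic lattice in a cube -/
noncomputable def pt (k : ℕ) (q : ℕ × ℕ × ℕ) : W3 :=
  !₂[√2 * ((q.1 : ℝ) - (2 * k - 1) / 2), √2 * ((q.2.1 : ℝ) - (2 * k - 1) / 2),
    √2 * (2 * (q.2.2 : ℝ) + (((q.1 + q.2.1) % 2 : ℕ) : ℝ) - (2 * k - 1) / 2)]

lemma norm_pt (k : ℕ) (q : ℕ × ℕ × ℕ) : ‖pt k q‖ ^ 2 =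
    2 * (((q.1 : ℝ) - (2 * k - 1) / 2) ^ 2 + ((q.2.1 : ℝ) - (2 * k - 1) / 2) ^ 2 +
      (2 * (q.2.2 : ℝ) + (((q.1 + q.2.1) % 2 : ℕ) : ℝ) - (2 * k - 1) / 2) ^ 2) := by
  rw [EuclideanSpace.norm_sq_eq, Fin.sum_univ_three]
  simp only [pt, Real.norm_eq_abs, sq_abs]
  have h2 : √2 ^ 2 = (2 : ℝ) := Real.sq_sqrt (by norm_num)
  simp [mul_pow, h2]
  ring

lemma dist_pt (k : ℕ) (q q' : ℕ × ℕ × ℕ) (hq : q ≠ q') : 2 ≤ dist (pt k q) (pt k q') := by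
  have h2 : √2 ^ 2 = (2 : ℝ) := Real.sq_sqrt (by norm_num)
  set dx : ℤ := (q.1 : ℤ) - q'.1 with hdx
  set dy : ℤ := (q.2.1 : ℤ) - q'.2.1 with hdy
  set dz : ℤ := (2 * (q.2.2 : ℤ) + ((q.1 + q.2.1) % 2 : ℕ)) -
    (2 * (q'.2.2 : ℤ) + ((q'.1 + q'.2.1) % 2 : ℕ)) with hdz
  have h1 : dist (pt k q) (pt k q') ^ 2 = 2 * ((dx : ℝ) ^ 2 + (dy : ℝ) ^ 2 + (dz : ℝ) ^ 2) := by
    rw [EuclideanSpace.dist_eq, Real.sq_sqrt (Finset.sum_nonneg fun i _ => sq_nonneg _),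
      Fin.sum_univ_three]
    simp only [Real.dist_eq, sq_abs, pt]
    have e1 : ((dx : ℤ) : ℝ) = (q.1 : ℝ) - q'.1 := by rw [hdx]; push_cast; ring
    have e2 : ((dy : ℤ) : ℝ) = (q.2.1 : ℝ) - q'.2.1 := by rw [hdy]; push_cast; ring
    have e3 : ((dz : ℤ) : ℝ) = (2 * (q.2.2 : ℝ) + (((q.1 + q.2.1) % 2 : ℕ) : ℝ)) -
        (2 * (q'.2.2 : ℝ) + (((q'.1 + q'.2.1) % 2 : ℕ) : ℝ)) := by
      rw [hdz]
      simp only [Int.cast_sub, Int.cast_add, Int.cast_mul, Int.cast_natCast, Int.cast_ofNat]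
    rw [e1, e2, e3]
    simp only [Matrix.cons_val_zero, Matrix.cons_val_one, Matrix.cons_val]
    linear_combination (((q.1 : ℝ) - q'.1) ^ 2 + ((q.2.1 : ℝ) - q'.2.1) ^ 2 +
      ((2 * (q.2.2 : ℝ) + (((q.1 + q.2.1) % 2 : ℕ) : ℝ)) -
        (2 * (q'.2.2 : ℝ) + (((q'.1 + q'.2.1) % 2 : ℕ) : ℝ))) ^ 2) * h2
  have hpar : (dx + dy + dz) % 2 = 0 := by
    rw [hdx, hdy, hdz]
    omega
  have hne : dx ≠ 0 ∨ dy ≠ 0 ∨ dz ≠ 0 := by
    by_contra hcon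
    push Not at hcon
    obtain ⟨a, b, c⟩ := hcon
    apply hq
    obtain ⟨x, y, w⟩ := q
    obtain ⟨x', y', w'⟩ := q'
    simp only at hdx hdy hdz
    have e1 : x = x' := by omega
    have e2 : y = y' := by omega
    subst e1 e2
    have e3 : w = w' := by omega
    rw [e3]
  have hge : 2 ≤ dx ^ 2 + dy ^ 2 + dz ^ 2 := by
    have hev : (dx ^ 2 + dy ^ 2 + dz ^ 2) % 2 = 0 := by
      have a1 : dx ^ 2 % 2 = dx % 2 := by
        rcases Int.emod_two_eq_zero_or_one dx with h | h <;> rw [pow_two, Int.mul_emod, h] <;> rfl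
      have a2 : dy ^ 2 % 2 = dy % 2 := by
        rcases Int.emod_two_eq_zero_or_one dy with h | h <;> rw [pow_two, Int.mul_emod, h] <;> rfl
      have a3 : dz ^ 2 % 2 = dz % 2 := by
        rcases Int.emod_two_eq_zero_or_one dz with h | h <;> rw [pow_two, Int.mul_emod, h] <;> rfl
      omega
    have hpos : 0 < dx ^ 2 + dy ^ 2 + dz ^ 2 := by
      rcases hne with h | h | h <;> positivity
    omega
  have hge' : (2 : ℝ) ≤ (dx : ℝ) ^ 2 + (dy : ℝ) ^ 2 + (dz : ℝ) ^ 2 := by exact_mod_cast hge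
  have h4 : (2 : ℝ) ^ 2 ≤ dist (pt k q) (pt k q') ^ 2 := by rw [h1]; linarith
  exact le_of_sq_le_sq h4 dist_nonneg

lemma sumsq (α β : ℝ) (k : ℕ) : ∑ w ∈ Finset.range k, (α * (w : ℝ) + β) ^ 2 =
    α ^ 2 * (k * (k - 1) * (2 * k - 1) / 6) + α * β * (k * (k - 1)) + β ^ 2 * k := by
  induction k with
  | zero => simp
  | succ k ih =>
    rw [Finset.sum_range_succ, ih]
    push_cast
    ring

/-- the total moment -/
lemma total (k : ℕ) : ∑ q ∈ Finset.range (2 * k) ×ˢ Finset.range (2 * k) ×ˢ Finset.range k,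
    ‖pt k q‖ ^ 2 = 2 * (k : ℝ) ^ 3 * (4 * k ^ 2 - 1) := by
  rw [Finset.sum_product]
  simp_rw [Finset.sum_product, norm_pt]
  have hw : ∀ x y : ℕ, ∑ w ∈ Finset.range k,
      (2 * (w : ℝ) + (((x + y) % 2 : ℕ) : ℝ) - (2 * (k : ℝ) - 1) / 2) ^ 2 =
        (k : ℝ) * (4 * (k : ℝ) ^ 2 - 1) / 12 := by
    intro x y
    have h := sumsq 2 ((((x + y) % 2 : ℕ) : ℝ) - (2 * (k : ℝ) - 1) / 2) k
    have e : ∀ w : ℕ, (2 * (w : ℝ) + ((((x + y) % 2 : ℕ) : ℝ) - (2 * (k : ℝ) - 1) / 2)) ^ 2 =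
        (2 * (w : ℝ) + (((x + y) % 2 : ℕ) : ℝ) - (2 * (k : ℝ) - 1) / 2) ^ 2 := fun w => by ring
    simp_rw [e] at h
    rw [h]
    rcases Nat.mod_two_eq_zero_or_one (x + y) with h0 | h0 <;> rw [h0] <;> push_cast <;> ring
  have hx : ∑ x ∈ Finset.range (2 * k), ((x : ℝ) - (2 * (k : ℝ) - 1) / 2) ^ 2 =
      (2 * (k : ℝ)) * (4 * (k : ℝ) ^ 2 - 1) / 12 := by
    have h := sumsq 1 (-((2 * (k : ℝ) - 1) / 2)) (2 * k)
    have e : ∀ w : ℕ, (1 * (w : ℝ) + (-((2 * (k : ℝ) - 1) / 2))) ^ 2 =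
        ((w : ℝ) - (2 * (k : ℝ) - 1) / 2) ^ 2 := fun w => by ring
    simp_rw [e] at h
    rw [h]
    push_cast
    ring
  simp_rw [← Finset.mul_sum, Finset.sum_add_distrib, hw]
  simp only [Finset.sum_const, Finset.card_range, nsmul_eq_mul]
  simp_rw [← Finset.mul_sum, hx]

  push_cast
  ring

/-- choosing few elements with small sum -/
lemma avg {ι : Type} [DecidableEq ι] (s : Finset ι) (f : ι → ℝ) (k : ℕ) (hk : k ≤ s.card) :
    ∃ t ⊆ s, t.card = s.card - k ∧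
      (s.card : ℝ) * ∑ x ∈ t, f x ≤ (s.card - k : ℕ) * ∑ x ∈ s, f x := by
  induction k with
  | zero => exact ⟨s, subset_rfl, by simp, by simp⟩
  | succ k ih =>
    obtain ⟨t, hts, htc, ht⟩ := ih (by omega)
    have hpos : 0 < t.card := by omega
    obtain ⟨x, hx, hmax⟩ := t.exists_max_image f (Finset.card_pos.1 hpos)
    refine ⟨t.erase x, (Finset.erase_subset _ _).trans hts, ?_, ?_⟩
    · rw [Finset.card_erase_of_mem hx]
      omega
    · have h1 : ∑ y ∈ t, f y ≤ t.card * f x := by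
        have := Finset.sum_le_card_nsmul t f (f x) hmax
        rwa [nsmul_eq_mul] at this
      have h2 := Finset.add_sum_erase t f hx
      have h3 : ((s.card - k : ℕ) : ℝ) = (t.card : ℝ) := by rw [htc]
      have h4 : ((s.card - (k + 1) : ℕ) : ℝ) = (t.card : ℝ) - 1 := by
        have : s.card - (k + 1) + 1 = t.card := by omega
        rw [← this]
        push_cast
        ring
      rw [h3] at ht
      rw [h4]
      have hq : (1 : ℝ) ≤ t.card := by exact_mod_cast hpos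
      have hN : (0 : ℝ) ≤ s.card := Nat.cast_nonneg _
      have h5 : ∑ y ∈ t.erase x, f y = ∑ y ∈ t, f y - f x := by linarith
      rw [h5]
      have h6 : (t.card : ℝ) * ((s.card : ℝ) * (∑ y ∈ t, f y - f x)) ≤
          (t.card : ℝ) * (((t.card : ℝ) - 1) * ∑ x ∈ s, f x) := by
        have h7 := mul_le_mul_of_nonneg_left h1 hN
        have h8 := mul_le_mul_of_nonneg_left ht (by linarith : (0 : ℝ) ≤ (t.card : ℝ) - 1)
        nlinarith
      exact le_of_mul_le_mul_left h6 (by linarith)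

/-- **Upper bound.** -/
theorem upper (n k : ℕ) (hk : 0 < k) (hn : n ≤ 4 * k ^ 3) :
    ∃ P : Fin n → W3, (∀ i j, i ≠ j → 2 ≤ dist (P i) (P j)) ∧
      ∑ i, ‖P i‖ ^ 2 ≤ n * (4 * k ^ 2 - 1) / 2 := by
  classical
  set s := Finset.range (2 * k) ×ˢ Finset.range (2 * k) ×ˢ Finset.range k with hs
  have hc : s.card = 4 * k ^ 3 := by
    rw [hs, Finset.card_product, Finset.card_product]
    simp only [Finset.card_range]
    ring
  obtain ⟨t, _, htc, ht⟩ := avg s (fun q => ‖pt k q‖ ^ 2) (s.card - n) (by omega)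
  have e : s.card - (s.card - n) = n := by omega
  rw [e] at htc ht
  rw [hs, total, ← hs, hc] at ht
  let g : Fin n ≃ t := (Finset.equivFinOfCardEq htc).symm
  refine ⟨fun i => pt k (g i).1, fun i j hij => ?_, ?_⟩
  · apply dist_pt
    intro h
    exact hij (g.injective (Subtype.ext h))
  · have h1 : ∑ i, ‖pt k (g i).1‖ ^ 2 = ∑ q ∈ t, ‖pt k q‖ ^ 2 := by
      rw [Equiv.sum_comp g (fun q : t => ‖pt k q.1‖ ^ 2)]
      exact Finset.sum_coe_sort t (fun q => ‖pt k q‖ ^ 2)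
    rw [h1]
    have hk3 : (0 : ℝ) < 4 * (k : ℝ) ^ 3 := by positivity
    push_cast at ht
    have h2 : 4 * (k : ℝ) ^ 3 * ∑ q ∈ t, ‖pt k q‖ ^ 2 ≤
        4 * (k : ℝ) ^ 3 * (n * (4 * k ^ 2 - 1) / 2) := by
      refine ht.trans (le_of_eq ?_)
      ring
    exact le_of_mul_le_mul_left h2 hk3

end Pool.Agent.Y235.MO
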