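import Mathlib

set_option autoImplicit false

open MeasureTheory Metric Set

namespace Pool.Agent.Y235.MO

abbrev V3 : Type := EuclideanSpace ℝ (Fin 3)

lemma radial (R s : ℝ) (hR : 0 ≤ R) :
    ∫ x in ball (0 : V3) R, (‖x‖ ^ 2 - s) =
      volume.real (ball (0 : V3) 1) * (3 / 5 * R ^ 5 - s * R ^ 3) := by
  have h0 : ∫ x in ball (0 : V3) R, (‖x‖ ^ 2 - s) =
      ∫ x : V3, (fun t : ℝ => (Set.Iio R).indicator (fun t => t ^ 2 - s) t) ‖x‖ := by
    rw [← integral_indicator measurableSet_ball]
    congr 1
    ext x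
    simp only [Set.indicator, mem_ball_zero_iff, mem_Iio]
  rw [h0, integral_fun_norm_addHaar]
  have hd : Module.finrank ℝ V3 = 3 := by simp
  rw [hd]
  have h1 : ∫ y in Ioi (0:ℝ), y ^ (3 - 1) • (Set.Iio R).indicator (fun t => t ^ 2 - s) y =
      R ^ 5 / 5 - s * (R ^ 3 / 3) := by
    have h2 : ∀ y : ℝ, y ^ (3 - 1) • (Set.Iio R).indicator (fun t => t ^ 2 - s) y =
        (Set.Iio R).indicator (fun y => y ^ 4 - s * y ^ 2) y := by
      intro y
      by_cases h : y ∈ Set.Iio R
      · simp only [Set.indicator_of_mem h, smul_eq_mul]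
        ring
      · simp only [Set.indicator_of_notMem h, smul_eq_mul, mul_zero]
    simp_rw [h2]
    rw [setIntegral_indicator measurableSet_Iio, Ioi_inter_Iio, ← integral_Ioc_eq_integral_Ioo,
      ← intervalIntegral.integral_of_le hR]
    rw [intervalIntegral.integral_sub (Continuous.intervalIntegrable (by fun_prop) _ _)
      (Continuous.intervalIntegrable (by fun_prop) _ _),
      intervalIntegral.integral_const_mul, integral_pow, integral_pow]
    norm_num
  rw [h1]
  simp only [nsmul_eq_mul, smul_eq_mul]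
  push_cast
  ring

lemma intg (P : V3) (s : ℝ) (r : ℝ) (Q : V3) :
    IntegrableOn (fun x : V3 => ‖x + P‖ ^ 2 - s) (ball Q r) volume := by
  have h : IntegrableOn (fun x : V3 => ‖x + P‖ ^ 2 - s) (closedBall Q r) volume := by
    apply ContinuousOn.integrableOn_compact (isCompact_closedBall _ _)
    fun_prop
  exact h.mono_set ball_subset_closedBall

/-- second moment of a unit ball -/
lemma moment (P : V3) (s : ℝ) :
    ∫ x in ball P 1, (‖x‖ ^ 2 - s) =
      volume.real (ball (0 : V3) 1) * (3 / 5 + ‖P‖ ^ 2 - s) := by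
  have h1 : ∫ x in ball P 1, (‖x‖ ^ 2 - s) = ∫ x in ball (0 : V3) 1, (‖x + P‖ ^ 2 - s) := by
    have h := (measurePreserving_add_right (volume : Measure V3) P).setIntegral_preimage_emb
      (measurableEmbedding_addRight P) (fun x => ‖x‖ ^ 2 - s) (ball P 1)
    rw [← h]
    congr 2
    ext x
    simp [dist_eq_norm]
  have h2 : ∫ x in ball (0 : V3) 1, (‖x + P‖ ^ 2 - s) =
      ∫ x in ball (0 : V3) 1, (‖-x + P‖ ^ 2 - s) := by
    have h := (Measure.measurePreserving_neg (volume : Measure V3)).setIntegral_preimage_emb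
      (MeasurableEquiv.neg V3).measurableEmbedding (fun x => ‖x + P‖ ^ 2 - s) (ball 0 1)
    rw [← h]
    congr 2
    ext x
    simp
  have h3 : (∫ x in ball (0 : V3) 1, (‖x + P‖ ^ 2 - s)) +
        (∫ x in ball (0 : V3) 1, (‖-x + P‖ ^ 2 - s))
      = ∫ x in ball (0 : V3) 1, 2 * (‖x‖ ^ 2 - (s - ‖P‖ ^ 2)) := by
    rw [← integral_add]
    · congr 1
      ext x
      have e1 := norm_add_sq_real x P
      have e2 := norm_add_sq_real (-x) P
      rw [inner_neg_left, norm_neg] at e2
      rw [e1, e2]
      ring
    · exact intg P s 1 0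
    · have h : IntegrableOn (fun x : V3 => ‖-x + P‖ ^ 2 - s) (closedBall 0 1) volume := by
        apply ContinuousOn.integrableOn_compact (isCompact_closedBall _ _)
        fun_prop
      exact h.mono_set ball_subset_closedBall
  rw [integral_const_mul, radial 1 _ zero_le_one] at h3
  rw [h1]
  rw [← h2] at h3
  have h4 : volume.real (ball (0 : V3) 1) * (3 / 5 + ‖P‖ ^ 2 - s) =
      volume.real (ball (0 : V3) 1) * (3 / 5 * 1 ^ 5 - (s - ‖P‖ ^ 2) * 1 ^ 3) := by ring
  rw [h4]
  linarith

/-- **Lower bound.** -/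
theorem lower {n : ℕ} (P : Fin n → V3) (hP : ∀ i j, i ≠ j → 2 ≤ dist (P i) (P j)) (R : ℝ)
    (hR : 0 ≤ R) (hn : R ^ 3 = n) :
    3 / 5 * (R ^ 5 - R ^ 3) ≤ ∑ i, ‖P i‖ ^ 2 := by
  have hv : 0 < volume.real (ball (0 : V3) 1) := by
    rw [measureReal_def]
    exact ENNReal.toReal_pos (measure_ball_pos _ _ one_pos).ne' measure_ball_lt_top.ne
  have hint : ∀ (Q : V3) (r : ℝ), IntegrableOn (fun x : V3 => ‖x‖ ^ 2 - R ^ 2) (ball Q r) volume := by
    intro Q r
    have := intg 0 (R ^ 2) r Q
    simpa using this
  have key : ∫ x in ball (0 : V3) R, (‖x‖ ^ 2 - R ^ 2) ≤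
      ∑ i, ∫ x in ball (P i) 1, (‖x‖ ^ 2 - R ^ 2) := by
    simp_rw [← integral_indicator measurableSet_ball]
    rw [← integral_finsetSum]
    · apply integral_mono
      · exact (hint _ _).integrable_indicator measurableSet_ball
      · exact integrable_finsetSum _ fun i _ => (hint _ _).integrable_indicator measurableSet_ball
      · intro x
        change (ball (0 : V3) R).indicator (fun x => ‖x‖ ^ 2 - R ^ 2) x ≤
          ∑ i, (ball (P i) 1).indicator (fun x => ‖x‖ ^ 2 - R ^ 2) x
        by_cases hx : ∃ i, x ∈ ball (P i) 1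
        · obtain ⟨i, hi⟩ := hx
          have hs : ∑ i, (ball (P i) 1).indicator (fun x => ‖x‖ ^ 2 - R ^ 2) x =
              ‖x‖ ^ 2 - R ^ 2 := by
            rw [Finset.sum_eq_single i]
            · exact Set.indicator_of_mem hi _
            · intro j _ hj
              apply Set.indicator_of_notMem
              intro hxj
              have h1 := hP i j (Ne.symm hj)
              have h2 := dist_triangle_left (P i) (P j) x
              rw [mem_ball] at hi hxj
              linarith
            · intro h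
              exact absurd (Finset.mem_univ _) h
          rw [hs]
          by_cases hxR : x ∈ ball (0 : V3) R
          · rw [Set.indicator_of_mem hxR]
          · rw [Set.indicator_of_notMem hxR]
            rw [mem_ball_zero_iff, not_lt] at hxR
            nlinarith [norm_nonneg x]
        · push Not at hx
          rw [Finset.sum_eq_zero fun i _ => Set.indicator_of_notMem (hx i) _]
          by_cases hxR : x ∈ ball (0 : V3) R
          · rw [Set.indicator_of_mem hxR]
            rw [mem_ball_zero_iff] at hxR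
            nlinarith [norm_nonneg x]
          · rw [Set.indicator_of_notMem hxR]
    · exact fun i _ => (hint _ _).integrable_indicator measurableSet_ball
  rw [radial R _ hR] at key
  simp_rw [moment] at key
  rw [← Finset.mul_sum] at key
  have h4 := le_of_mul_le_mul_left key hv
  rw [Finset.sum_sub_distrib, Finset.sum_add_distrib] at h4
  simp only [Finset.sum_const, Finset.card_univ, Fintype.card_fin, nsmul_eq_mul] at h4
  rw [← hn] at h4
  nlinarith [h4]

end Pool.Agent.Y235.MO
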